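import Pool.Agent.L5helper86.UL.Schin

/-! MP_d9bc60_nt (helper86): the problem of Schinzel for every large odd integer in the random model of the primes. -/

set_option autoImplicit false

namespace Pool.Agent.Results.MP_d9bc60_nt.EveryOddInteger

open Finset Polynomial MeasureTheory ProbabilityTheory Filter Topology

/-- the integer `r` belongs to the random set `R`: `r ≢ a p` modulo `p` for all primes `p ≤ z |r|` -/
def InR (z : ℕ → ℝ) (a : ℕ → ℕ) (r : ℤ) : Prop :=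
  ∀ p : ℕ, p.Prime → (p : ℝ) ≤ z r.natAbs → ¬ r ≡ (a p : ℤ) [ZMOD p]

open Classical in
/-- the number of the residues `r` modulo `p` such that `p ≤ z |m|` and `r ≡ b`, or `p ≤ z |n - f(m)|` and
`n - f(r) ≡ b` modulo `p` -/
noncomputable def rho (z : ℕ → ℝ) (f : ℤ[X]) (n m : ℤ) (b p : ℕ) : ℕ :=
  #((range p).filter fun r : ℕ => ((p : ℝ) ≤ z m.natAbs ∧ (r : ℤ) ≡ (b : ℤ) [ZMOD p]) ∨
    ((p : ℝ) ≤ z (n - f.eval m).natAbs ∧ n - f.eval (r : ℤ) ≡ (b : ℤ) [ZMOD p]))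

/-- the local density at `m` (a product over all primes, almost all factors are 1) -/
noncomputable def dens (z : ℕ → ℝ) (f : ℤ[X]) (n : ℤ) (a : ℕ → ℕ) (m : ℤ) : ℝ :=
  ∏ᶠ p : Nat.Primes, (1 - (rho z f n m (a p) p : ℝ) / p)

open Classical in
theorem result {Ω : Type} [MeasurableSpace Ω] (P : Measure Ω) [IsProbabilityMeasure P] (a : ℕ → Ω → ℕ)
    (hmeas : ∀ p, Measurable (a p)) (hind : iIndepFun (fun p : Nat.Primes => a p) P)
    (hunif : ∀ p r : ℕ, p.Prime → r < p → P.real {ω | a p ω = r} = 1 / p)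
    (z : ℕ → ℝ) (hz : Monotone z) (A : ℕ) (hA : ∀ n : ℕ, z n ≤ ((n : ℝ) + 2) ^ A) :
    ∀ᵐ ω ∂P,
      (∀ (D B : ℕ) (ε : ℝ), 0 < ε → ∀ᶠ N : ℕ in atTop, ∀ (f : ℤ[X]) (n u : ℤ), f.natDegree ≤ D →
        (∀ j, |f.coeff j| ≤ (N : ℤ) ^ B) → |n| ≤ (N : ℤ) ^ B → |u| ≤ (N : ℤ) ^ B →
        |(#((Ioc u (u + N)).filter fun m => InR z (fun p => a p ω) m ∧ InR z (fun p => a p ω) (n - f.eval m)) : ℝ) -
          ∑ m ∈ Ioc u (u + N), dens z f n (fun p => a p ω) m| ≤ (N : ℝ) ^ (1 / 2 + ε) ∧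
        ((∀ p : ℕ, p.Prime → ∃ r : ℤ, ¬ r ≡ (a p ω : ℤ) [ZMOD p] ∧ ¬ n - f.eval r ≡ (a p ω : ℤ) [ZMOD p]) →
          (N : ℝ) ^ (1 - ε) ≤ ∑ m ∈ Ioc u (u + N), dens z f n (fun p => a p ω) m)) ∧
      ∀ δ : ℝ, 0 < δ → ∀ᶠ n : ℕ in atTop, ∀ b c : ℤ, (|b| : ℝ) ≤ (n : ℝ) ^ (1 / 2 - δ) → (|c| : ℝ) ≤ (n : ℝ) ^ (1 - δ) →
        |(#((Icc (1 : ℤ) n).filter fun m => m ^ 2 + b * m + c < n ∧ InR z (fun p => a p ω) m ∧
            InR z (fun p => a p ω) (n - (m ^ 2 + b * m + c))) : ℝ) -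
          ∑ m ∈ (Icc (1 : ℤ) n).filter (fun m => m ^ 2 + b * m + c < n),
            dens z (X ^ 2 + C b * X + C c) n (fun p => a p ω) m| ≤ (n : ℝ) ^ (1 / 4 + δ) ∧
        (a 2 ω = 0 → a 3 ω = 0 → Odd n → Odd (b + c) → ¬ (3 : ℤ) ∣ b →
          (n : ℝ) ^ (1 / 2 - δ) ≤ #((Icc (1 : ℤ) n).filter fun m => m ^ 2 + b * m + c < n ∧
            InR z (fun p => a p ω) m ∧ InR z (fun p => a p ω) (n - (m ^ 2 + b * m + c)))) := by
  have hS : L5helper86.UL.Sys P a := ⟨inferInstance, hmeas, hind, hunif⟩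
  have hrho : ∀ (f : ℤ[X]) (n m : ℤ) (b p : ℕ), L5helper86.UL.rho z (L5helper86.UL.pair f n) m b p = rho z f n m b p := by
    intro f n m b p
    unfold L5helper86.UL.rho rho
    congr 1
    refine filter_congr fun r _ => ?_
    rw [Fin.exists_fin_two, L5helper86.UL.pair_zero, L5helper86.UL.pair_one, L5helper86.UL.pair_zero,
      L5helper86.UL.pair_one]
  have hdens : ∀ (f : ℤ[X]) (n : ℤ) (b : ℕ → ℕ) (m : ℤ),
      L5helper86.UL.dens z (L5helper86.UL.pair f n) b m = dens z f n b m := by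
    intro f n b m
    unfold L5helper86.UL.dens dens
    simp only [hrho]
  have hcnt : ∀ (f : ℤ[X]) (n : ℤ) (b : ℕ → ℕ) (S : Finset ℤ),
      (S.filter fun m => ∀ i, L5helper86.UL.Sifted z b ((L5helper86.UL.pair f n i).eval m)) =
        S.filter fun m => InR z b m ∧ InR z b (n - f.eval m) := by
    intro f n b S
    refine filter_congr fun m _ => ?_
    rw [Fin.forall_fin_two, L5helper86.UL.pair_zero, L5helper86.UL.pair_one]
    rfl
  filter_upwards [L5helper86.UL.universal hS hz hA, L5helper86.UL.universal_lower hS hz hA] with ω h1 h2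
  have hmain : ∀ (D B : ℕ) (ε : ℝ), 0 < ε → ∀ᶠ N : ℕ in atTop, ∀ (f : ℤ[X]) (n u : ℤ), f.natDegree ≤ D →
        (∀ j, |f.coeff j| ≤ (N : ℤ) ^ B) → |n| ≤ (N : ℤ) ^ B → |u| ≤ (N : ℤ) ^ B →
        |(#((Ioc u (u + N)).filter fun m => InR z (fun p => a p ω) m ∧ InR z (fun p => a p ω) (n - f.eval m)) : ℝ) -
          ∑ m ∈ Ioc u (u + N), dens z f n (fun p => a p ω) m| ≤ (N : ℝ) ^ (1 / 2 + ε) ∧
        ((∀ p : ℕ, p.Prime → ∃ r : ℤ, ¬ r ≡ (a p ω : ℤ) [ZMOD p] ∧ ¬ n - f.eval r ≡ (a p ω : ℤ) [ZMOD p]) →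
          (N : ℝ) ^ (1 - ε) ≤ #((Ioc u (u + N)).filter fun m => InR z (fun p => a p ω) m ∧
            InR z (fun p => a p ω) (n - f.eval m)) ∧
          (N : ℝ) ^ (1 - ε) ≤ ∑ m ∈ Ioc u (u + N), dens z f n (fun p => a p ω) m) := by
    intro D B ε hε
    filter_upwards [h1 2 (D + 1) (B + 1) ε hε, h2 2 (D + 1) (B + 1) ε hε, eventually_ge_atTop 2] with N h3 h4 hN2
      f n u hf hfc hn hu
    have hNz : (1 : ℤ) ≤ N := by exact_mod_cast (by omega : 1 ≤ N)
    have hu' : |u| ≤ (N : ℤ) ^ (B + 1) := hu.trans (pow_le_pow_right₀ hNz (by omega))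
    have h5 := h3 u hu' (L5helper86.UL.pair f n) (fun i => L5helper86.UL.pair_deg hf i)
      (fun i j => L5helper86.UL.pair_coeff hN2 hfc hn i j)
    have h6 := h4 u hu' (L5helper86.UL.pair f n) (fun i => L5helper86.UL.pair_deg hf i)
      (fun i j => L5helper86.UL.pair_coeff hN2 hfc hn i j)
    rw [hcnt] at h5 h6
    simp only [hdens] at h5 h6
    exact ⟨h5, fun h7 => h6 (L5helper86.UL.pair_free h7)⟩
  refine ⟨fun D B ε hε => ?_, fun δ hδ => ?_⟩
  · filter_upwards [hmain D B ε hε] with N h3 f n u hf hfc hn hu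
    exact ⟨(h3 f n u hf hfc hn hu).1, fun h7 => ((h3 f n u hf hfc hn hu).2 h7).2⟩
  · obtain ⟨δ', hδ'⟩ : ∃ δ' : ℝ, δ' = min δ 1 := ⟨_, rfl⟩
    have hδ'0 : 0 < δ' := by rw [hδ']; exact lt_min hδ one_pos
    have hδ'1 : δ' ≤ 1 := by rw [hδ']; exact min_le_right _ _
    have hδ'2 : δ' ≤ δ := by rw [hδ']; exact min_le_left _ _
    obtain ⟨N0, hN0⟩ := eventually_atTop.1 (hmain 2 3 δ' hδ'0)
    have hbig : ∀ᶠ n : ℕ in atTop, (4 : ℝ) ≤ (n : ℝ) ^ (δ' / 2) :=
      ((tendsto_rpow_atTop (by positivity)).comp tendsto_natCast_atTop_atTop).eventually_ge_atTop 4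
    filter_upwards [L5helper86.UL.quad_range hδ, hbig, eventually_ge_atTop ((3 * (N0 + 10)) ^ 2)] with n h3 h4 h5 b c hb hc
    obtain ⟨M, hM, hM1, hM2⟩ := h3 b c hb hc
    have hn1 : (1 : ℝ) ≤ n := by
      have : 1 ≤ (3 * (N0 + 10)) ^ 2 := Nat.one_le_pow _ _ (by omega)
      exact_mod_cast this.trans h5
    have hn0 : (0 : ℝ) < n := by linarith
    obtain ⟨s, hs⟩ : ∃ s, s = Real.sqrt n := ⟨_, rfl⟩
    have hs2 : s ^ 2 = n := by rw [hs]; exact Real.sq_sqrt hn0.le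
    have hs0 : 0 ≤ s := by rw [hs]; exact Real.sqrt_nonneg _
    have hsN : (3 * ((N0 : ℝ) + 10)) ≤ s := by
      rw [hs]
      refine Real.le_sqrt_of_sq_le ?_
      exact_mod_cast h5
    rw [← hs] at hM1 hM2
    have hMN : ((N0 : ℝ) + 10) ≤ M := by linarith
    have hMN0 : N0 ≤ M := by
      have : (N0 : ℝ) ≤ M := by linarith
      exact_mod_cast this
    have hM10 : (10 : ℝ) ≤ M := by
      have : (0 : ℝ) ≤ N0 := by positivity
      linarith
    have hM0 : (0 : ℝ) < M := by linarith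
    have hnM : (n : ℝ) ≤ (M : ℝ) ^ 3 := by
      rw [← hs2]
      have h6 : s ^ 2 ≤ (3 * (M : ℝ)) ^ 2 := pow_le_pow_left₀ hs0 hM1 2
      nlinarith [sq_nonneg (M : ℝ)]
    have hnMz : |((n : ℕ) : ℤ)| ≤ (M : ℤ) ^ 3 := by
      rw [abs_of_nonneg (by positivity)]
      exact_mod_cast hnM
    have hbM : |b| ≤ (M : ℤ) ^ 3 := by
      have : ((|b| : ℤ) : ℝ) ≤ (((M : ℤ) ^ 3 : ℤ) : ℝ) := by
        push_cast
        refine le_trans ?_ hnM
        push_cast at hb
        refine hb.trans ?_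
        calc (n : ℝ) ^ (1 / 2 - δ) ≤ (n : ℝ) ^ (1 : ℝ) := Real.rpow_le_rpow_of_exponent_le hn1 (by linarith)
          _ = n := Real.rpow_one _
      exact_mod_cast this
    have hcM : |c| ≤ (M : ℤ) ^ 3 := by
      have : ((|c| : ℤ) : ℝ) ≤ (((M : ℤ) ^ 3 : ℤ) : ℝ) := by
        push_cast
        refine le_trans ?_ hnM
        push_cast at hc
        refine hc.trans ?_
        calc (n : ℝ) ^ (1 - δ) ≤ (n : ℝ) ^ (1 : ℝ) := Real.rpow_le_rpow_of_exponent_le hn1 (by linarith)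
          _ = n := Real.rpow_one _
      exact_mod_cast this
    have hM1z : (1 : ℤ) ≤ (M : ℤ) ^ 3 := by
      have : (1 : ℤ) ≤ M := by
        have : (1 : ℝ) ≤ M := by linarith
        exact_mod_cast this
      exact one_le_pow₀ this
    obtain ⟨f, hf⟩ : ∃ f : ℤ[X], f = X ^ 2 + C b * X + C c := ⟨_, rfl⟩
    have hfe : ∀ m : ℤ, f.eval m = m ^ 2 + b * m + c := by
      intro m
      rw [hf]
      simp
    have hfd : f.natDegree ≤ 2 := by
      rw [hf]
      compute_degree!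
    have hfc : ∀ j, |f.coeff j| ≤ (M : ℤ) ^ 3 := by
      intro j
      rw [hf]
      simp only [coeff_add, coeff_X_pow, coeff_C_mul, coeff_X, coeff_C]
      rcases j with _ | _ | _ | j
      · simpa using hcM
      · simpa using hbM
      · simpa using hM1z
      · simp only [show ¬ (j + 1 + 1 + 1 = 2) by omega, show ¬ (1 = j + 1 + 1 + 1) by omega,
          show ¬ (j + 1 + 1 + 1 = 0) by omega, if_false]
        simp only [mul_zero, add_zero, abs_zero]
        linarith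
    have h7 := hN0 M hMN0 f n 0 hfd hfc hnMz (by rw [abs_zero]; linarith)
    rw [zero_add] at h7
    have hcard : ((Icc (1 : ℤ) n).filter fun m => m ^ 2 + b * m + c < n ∧ InR z (fun p => a p ω) m ∧
        InR z (fun p => a p ω) (n - (m ^ 2 + b * m + c))) =
        (Ioc 0 (M : ℤ)).filter fun m => InR z (fun p => a p ω) m ∧ InR z (fun p => a p ω) (n - f.eval m) := by
      rw [← hM, filter_filter]
      refine filter_congr fun m _ => ?_
      rw [hfe]
    rw [hcard, hM, ← hf]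
    constructor
    · refine h7.1.trans ?_
      have h8 : (n : ℝ) ^ (1 / 4 + δ') ≤ (n : ℝ) ^ (1 / 4 + δ) := Real.rpow_le_rpow_of_exponent_le hn1 (by linarith)
      refine le_trans ?_ h8
      calc (M : ℝ) ^ (1 / 2 + δ') ≤ (2 * s) ^ (1 / 2 + δ') := Real.rpow_le_rpow hM0.le hM2 (by linarith)
        _ = 2 ^ (1 / 2 + δ') * s ^ (1 / 2 + δ') := Real.mul_rpow (by norm_num) hs0
        _ ≤ (n : ℝ) ^ (δ' / 2) * (n : ℝ) ^ (1 / 4 + δ' / 2) := by
            refine mul_le_mul ?_ (le_of_eq ?_) (by positivity) (by positivity)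
            · refine le_trans ?_ h4
              calc (2 : ℝ) ^ (1 / 2 + δ') ≤ 2 ^ (2 : ℝ) :=
                    Real.rpow_le_rpow_of_exponent_le (by norm_num) (by linarith)
                _ = 4 := by norm_num
            · rw [hs, Real.sqrt_eq_rpow, ← Real.rpow_mul hn0.le]
              congr 1
              ring
        _ = (n : ℝ) ^ (1 / 4 + δ') := by
            rw [← Real.rpow_add hn0]
            congr 1
            ring
    · intro ha2 ha3 hodd hbc hb3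
      have hoddz : Odd (n : ℤ) := by exact_mod_cast hodd
      have h9 := (h7.2 (fun p hp => by
        obtain ⟨r, hr1, hr2⟩ := L5helper86.UL.adm_free hbc hb3 hoddz (a := fun p => a p ω) ha2 ha3 hp
        refine ⟨r, hr1, ?_⟩
        rw [hfe]
        exact hr2)).1
      refine le_trans ?_ h9
      have h8 : (n : ℝ) ^ (1 / 2 - δ) ≤ (n : ℝ) ^ (1 / 2 - δ') := Real.rpow_le_rpow_of_exponent_le hn1 (by linarith)
      refine h8.trans ?_
      have h10 : (n : ℝ) ^ (1 / 2 - δ') ≤ (s / 3) ^ (1 - δ') := by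
        rw [Real.div_rpow hs0 (by norm_num), le_div_iff₀ (by positivity)]
        calc (n : ℝ) ^ (1 / 2 - δ') * 3 ^ (1 - δ') ≤ (n : ℝ) ^ (1 / 2 - δ') * (n : ℝ) ^ (δ' / 2) := by
              refine mul_le_mul_of_nonneg_left ?_ (by positivity)
              refine le_trans ?_ h4
              calc (3 : ℝ) ^ (1 - δ') ≤ 3 ^ (1 : ℝ) := Real.rpow_le_rpow_of_exponent_le (by norm_num) (by linarith)
                _ ≤ 4 := by norm_num
          _ = s ^ (1 - δ') := by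
              rw [← Real.rpow_add hn0, hs, Real.sqrt_eq_rpow, ← Real.rpow_mul hn0.le]
              congr 1
              ring
      exact h10.trans (Real.rpow_le_rpow (by positivity) (by linarith) (by linarith))

end Pool.Agent.Results.MP_d9bc60_nt.EveryOddInteger
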