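import Pool.Agent.Y882.GP.Quad

/-!
# Odd integers `n = f(p) + P_r` for admissible monic quadratic `f`: few exceptions

Let `f = x² + b x + c` be admissible (`b`, `c` of opposite parity, `3 ∤ b`). For `0 < θ ≤ 1 / 2` and
`(1 + θ) (r + 1) > 4` all odd `n ≤ X` with at most `C X ^ (max (2/3, 1 - θ, 4/(r+1) - θ) + ε)` exceptions
have a representation `n = f(p) + m` with a prime `p ≤ n ^ θ` and an `m ≥ 2` with at most `r` prime factors,
all of them at least `n ^ (1/(r+1))`. The number of such `p` is at least a constant times the product of the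
partial singular series and `n ^ θ / (log n)²`.

For `r = 2`, `θ = 1 / 2`: `n = f(p₁) + P₂` for all but `O(X ^ (5/6 + ε))` odd `n ≤ X`. For `r = 3` the prime
`p₁` may be as small as `n ^ θ`, for any `θ > 0`.
-/

set_option autoImplicit false

open Finset

namespace Pool.Agent.Results.MP_d9bc60_nt.FewExceptionsAlmostPrime

/-- The polynomial `f(x) = x² + b x + c`. -/
def f (b c x : ℤ) : ℤ := x ^ 2 + b * x + c

open Classical in
/-- The number of the residues `x` modulo `q` with `x (n - f(x)) ≡ 0 (mod q)`. -/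
noncomputable def omega (b c : ℤ) (n q : ℕ) : ℕ :=
  ((range q).filter (fun x : ℕ => (q : ℤ) ∣ (x : ℤ) * ((n : ℤ) - f b c x))).card

/-- The partial product `∏_{q ≤ z} (1 - omega(q) / q) / (1 - 1 / q)²` of the singular series of the problem
`n = f(p₁) + p₂`, over the primes `q ≤ z`. -/
noncomputable def sing (b c : ℤ) (n : ℕ) (z : ℝ) : ℝ :=
  ∏ q ∈ (Icc 1 ⌊z⌋₊).filter Nat.Prime, (1 - (omega b c n q : ℝ) / q) / (1 - 1 / (q : ℝ)) ^ 2

open Classical in
/-- The primes `p ≤ n ^ θ` such that `n = f(p) + m` with an `m ≥ 2` which has at most `r` prime factors, counted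
with multiplicity, all of them at least `n ^ (1 / (r + 1))`. -/
noncomputable def reps (b c : ℤ) (r : ℕ) (θ : ℝ) (n : ℕ) : Finset ℕ :=
  (Icc 1 ⌊(n : ℝ) ^ θ⌋₊).filter (fun p : ℕ => p.Prime ∧ ∃ m : ℕ, (n : ℤ) = f b c p + m ∧ 2 ≤ m ∧
    m.primeFactorsList.length ≤ r ∧ ∀ q : ℕ, q.Prime → q ∣ m → (n : ℝ) ^ (1 / ((r : ℝ) + 1)) ≤ q)

/-- **`n = f(p) + P_r` with few exceptions.** Let `b`, `c` be integers of opposite parity, `3 ∤ b`,
`0 < θ ≤ 1 / 2`, `(1 + θ) (r + 1) > 4` and `ε > 0`. All odd `n ≤ X` with at most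
`C X ^ (max (2/3, 1 - θ, 4/(r+1) - θ) + ε)` exceptions have at least `δ 𝔖 n ^ θ / (log n)²` representations
`n = f(p) + m` with a prime `p ≤ n ^ θ` and an `m ≥ 2` which has at most `r` prime factors, all of them at
least `n ^ (1/(r+1))`; here `𝔖 = sing b c n (n ^ θ)` is the partial singular series, and it is at least
`c₀ / log z` for all odd `n`, with a constant `c₀ > 0` which does not depend on `f`. -/
theorem result : ∃ c₀ : ℝ, 0 < c₀ ∧ ∀ b c : ℤ, Odd (b + c) → ¬ (3 : ℤ) ∣ b →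
    (∀ n : ℕ, Odd n → ∀ z : ℝ, 3 ≤ z → c₀ / Real.log z ≤ sing b c n z) ∧
    ∀ (r : ℕ) (θ ε : ℝ), 0 < θ → θ ≤ 1 / 2 → 4 < (1 + θ) * (r + 1) → 0 < ε →
      ∃ δ C : ℝ, 0 < δ ∧ 0 < C ∧ ∀ X : ℕ, 1 ≤ X →
        (((Icc 1 X).filter (fun n : ℕ => Odd n ∧ ((reps b c r θ n).card : ℝ) <
          δ * sing b c n ((n : ℝ) ^ θ) * ((n : ℝ) ^ θ / Real.log n ^ 2))).card : ℝ) ≤
        C * (X : ℝ) ^ (max (max (2 / 3) (1 - θ)) (4 / ((r : ℝ) + 1) - θ) + ε) := by
  classical
  have hsing : ∀ (b c : ℤ) (n : ℕ) (z : ℝ),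
      Pool.Agent.Y882.GP.sing (Pool.Agent.Y882.GP.fq b c) n z = sing b c n z := by
    intro b c n z
    unfold Pool.Agent.Y882.GP.sing sing
    refine prod_congr rfl fun q _ => ?_
    have : Pool.Agent.Y882.GP.om (Pool.Agent.Y882.GP.fq b c) n q = omega b c n q := by
      unfold Pool.Agent.Y882.GP.om omega f
      congr 1
      apply filter_congr
      intro x _
      rw [Pool.Agent.Y882.GP.fq_eval]
    rw [this]
  obtain ⟨c₀, hc₀, hlow⟩ := Pool.Agent.Y882.GP.sing_low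
  refine ⟨c₀, hc₀, fun b c hbc hb => ⟨fun n hn z hz => ?_, ?_⟩⟩
  · rw [← hsing]
    exact hlow b c hbc hb n hn z hz
  · intro r θ ε hθ0 hθ1 hr hε
    obtain ⟨δ, C, hδ, hC, H⟩ := Pool.Agent.Y882.GP.schz (Pool.Agent.Y882.GP.fq b c)
      (by rw [Pool.Agent.Y882.GP.fq_deg]; norm_num) (by rw [Pool.Agent.Y882.GP.fq_monic]; norm_num) r θ ε
      hθ0 (by rw [Pool.Agent.Y882.GP.fq_deg]; push_cast; linarith) hr hε
    refine ⟨δ, C, hδ, hC, fun X hX => le_trans ?_ (H X hX)⟩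
    have hsub : ∀ n : ℕ, Pool.Agent.Y882.GP.good (Pool.Agent.Y882.GP.fq b c) r n ((n : ℝ) ^ θ) ⊆
        reps b c r θ n := by
      intro n x hx
      unfold Pool.Agent.Y882.GP.good at hx
      unfold reps
      rw [mem_filter, Pool.Agent.Y882.GP.fq_eval] at hx
      rw [mem_filter]
      obtain ⟨h0, h1, h2, h3, h4⟩ := hx
      refine ⟨h0, h1, ((n : ℤ) - ((x : ℤ) ^ 2 + b * x + c)).natAbs, ?_, ?_, h3, ?_⟩
      · unfold f
        zify
        rw [abs_of_nonneg (by linarith)]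
        ring
      · zify
        rw [abs_of_nonneg (by linarith)]
        exact h2
      · intro q hq hqm
        exact h4 q hq (Int.natCast_dvd.2 hqm)
    have hfin : (Icc 1 X).filter (fun n : ℕ => Odd n ∧ ((reps b c r θ n).card : ℝ) <
          δ * sing b c n ((n : ℝ) ^ θ) * ((n : ℝ) ^ θ / Real.log n ^ 2)) ⊆
        (Icc 1 X).filter (fun N : ℕ =>
          ((Pool.Agent.Y882.GP.good (Pool.Agent.Y882.GP.fq b c) r N ((N : ℝ) ^ θ)).card : ℝ) <
          δ * Pool.Agent.Y882.GP.sing (Pool.Agent.Y882.GP.fq b c) N ((N : ℝ) ^ θ) *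
            ((N : ℝ) ^ θ / Real.log N ^ 2)) := by
      intro n hn
      rw [mem_filter] at hn ⊢
      refine ⟨hn.1, ?_⟩
      rw [hsing]
      refine lt_of_le_of_lt ?_ hn.2.2
      exact_mod_cast card_le_card (hsub n)
    exact_mod_cast card_le_card hfin

end Pool.Agent.Results.MP_d9bc60_nt.FewExceptionsAlmostPrime
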