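import Pool.Agent.L5helper16.PQ.C

set_option autoImplicit false

/-!
# `n = f(p) + P_3` with `p` among the first `λ log X` primes, for almost all odd `n` in short intervals
-/

namespace Pool.Agent.Results.MP_d9bc60_nt.SmallestPrimes

open Finset Filter Pool.Agent

/-- the polynomial `x² + b x + c` -/
def f (b c x : ℤ) : ℤ := x ^ 2 + b * x + c

open Classical in
/-- the number of the primes `p` among the first `⌊T⌋` primes such that `n = f(p) + m` with an integer `m ≥ 2` which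
has at most `k` prime factors (counted with multiplicity), all of them at least `w` -/
noncomputable def reps (b c : ℤ) (n k : ℕ) (w T : ℝ) : ℕ :=
  ((range ⌊T⌋₊).filter (fun i : ℕ => ∃ m : ℕ, (n : ℤ) = f b c (Nat.nth Nat.Prime i : ℕ) + m ∧ 2 ≤ m ∧
    m.primeFactorsList.length ≤ k ∧ ∀ q : ℕ, q.Prime → q ∣ m → w ≤ q)).card

open Pool.Agent.L5helper16.PQ in
lemma cnt_le (b c : ℤ) (n k J j0 : ℕ) (w T : ℝ) (hJ : j0 + J ≤ ⌊T⌋₊) :
    R490.LGb.cnt (fun _ => 1) (fun j => Bz b (-1) (-c) (qn j0 j)) k J n w ≤ reps b c n k w T := by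
  classical
  unfold R490.LGb.cnt reps
  apply card_le_card_of_injOn (fun j => j + j0 - 1)
  · intro j hj
    rw [mem_coe, mem_filter, mem_Icc] at hj
    obtain ⟨⟨h0, h1⟩, h2, h3, h4⟩ := hj
    rw [mem_coe, mem_filter, mem_range]
    refine ⟨by show j + j0 - 1 < ⌊T⌋₊; omega, ?_⟩
    obtain ⟨m, hm⟩ : ∃ m : ℕ, (m : ℤ) = ((1 : ℕ) : ℤ) * n + Bz b (-1) (-c) (qn j0 j) :=
      ⟨_, Int.toNat_of_nonneg (by linarith)⟩
    rw [← hm] at h2 h3 h4
    rw [Int.toNat_natCast] at h3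
    refine ⟨m, ?_, by exact_mod_cast h2, h3, ?_⟩
    · have e1 : qn j0 j = Nat.nth Nat.Prime (j + j0 - 1) := rfl
      unfold Bz at hm
      rw [e1] at hm
      unfold f
      push_cast at hm
      linarith
    · intro q hq hd
      exact h4 q hq (by exact_mod_cast hd)
  · intro i hi j hj hij
    rw [mem_coe, mem_filter, mem_Icc] at hi hj
    have := hi.1.1
    have := hj.1.1
    simp only at hij
    omega

open Pool.Agent.L5helper16.PQ in
/-- **`n = f(p) + P_k` with `p` among the first primes, for almost all odd `n` in short intervals.** -/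
theorem result (b c : ℤ) (hpar : Odd (b + c)) (h3 : ¬ (3 : ℤ) ∣ b) (θ ε : ℝ) (k : ℕ) (hθ : 0 < θ) (hθ1 : θ ≤ 1)
    (hk : 1 / 8 + 25 / (12 * θ) < k) (hε : 0 < ε) :
    ∃ κ Λ : ℝ, 0 < κ ∧ 0 < Λ ∧ ∀ l : ℝ, Λ ≤ l → ∃ X₀ : ℕ, ∀ X : ℕ, X₀ ≤ X → ∀ Z L : ℕ,
      (X : ℝ) ^ θ ≤ L → Z + L ≤ X →
      (({n : ℕ | n ∈ Ioc Z (Z + L) ∧ Odd n ∧
        (reps b c n k ((X : ℝ) ^ (θ / 10)) (l * Real.log X) : ℝ) < κ * l} : Set ℕ).ncard : ℝ) ≤ ε * L := by
  classical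
  obtain ⟨κ, Λ, hκ, hΛ, h⟩ := mainP b (-1) (-c) rfl h3 b.natAbs le_rfl θ ε k hθ hθ1 hk hε
  refine ⟨κ / 2, 2 * Λ, by positivity, by positivity, ?_⟩
  intro l hl
  have hl0 : 0 < l := by linarith
  have hl2 : Λ ≤ l / 2 := by linarith
  have ev : ∀ᶠ X : ℕ in atTop, (2 * ((b.natAbs : ℝ) + 1)) / l ≤ Real.log X :=
    (Real.tendsto_log_atTop.comp tendsto_natCast_atTop_atTop).eventually_ge_atTop _
  obtain ⟨X₀, hX₀⟩ := eventually_atTop.1 ((h (l / 2) hl2).and ev)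
  refine ⟨X₀, ?_⟩
  intro X hX Z L hL hZ
  obtain ⟨g1, g2⟩ := hX₀ X hX
  have hlog : 0 ≤ Real.log X := Real.log_natCast_nonneg X
  have hJ : b.natAbs + ⌊l / 2 * Real.log X⌋₊ ≤ ⌊l * Real.log X⌋₊ := by
    apply Nat.le_floor
    push_cast
    have e1 : (⌊l / 2 * Real.log X⌋₊ : ℝ) ≤ l / 2 * Real.log X := Nat.floor_le (by positivity)
    rw [div_le_iff₀ hl0] at g2
    nlinarith
  refine le_trans ?_ (g1 Z L hL hZ)
  have hsub : ({n : ℕ | n ∈ Ioc Z (Z + L) ∧ Odd n ∧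
        (reps b c n k ((X : ℝ) ^ (θ / 10)) (l * Real.log X) : ℝ) < κ / 2 * l} : Set ℕ) ⊆
      ((Ioc Z (Z + L)).filter (fun n => AdmP b (-c) n ∧
        (R490.LGb.cnt (fun _ => 1) (fun j => Bz b (-1) (-c) (qn b.natAbs j)) k ⌊l / 2 * Real.log X⌋₊ n
          ((X : ℝ) ^ (θ / 10)) : ℝ) < κ * (l / 2)) : Finset ℕ) := by
    intro n hn
    obtain ⟨a1, a2, a3⟩ := hn
    rw [mem_coe, mem_filter]
    refine ⟨a1, ?_, ?_⟩
    · unfold AdmP
      obtain ⟨t, ht⟩ := a2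
      obtain ⟨s, hs⟩ := hpar
      omega
    · have a4 := cnt_le b c n k ⌊l / 2 * Real.log X⌋₊ b.natAbs ((X : ℝ) ^ (θ / 10)) (l * Real.log X) hJ
      have a5 : (R490.LGb.cnt (fun _ => 1) (fun j => Bz b (-1) (-c) (qn b.natAbs j)) k ⌊l / 2 * Real.log X⌋₊ n
          ((X : ℝ) ^ (θ / 10)) : ℝ) ≤ reps b c n k ((X : ℝ) ^ (θ / 10)) (l * Real.log X) := by
        exact_mod_cast a4
      linarith
  have h5 := Set.ncard_le_ncard hsub (Finset.finite_toSet _)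
  rw [Set.ncard_coe_finset] at h5
  exact_mod_cast h5

end Pool.Agent.Results.MP_d9bc60_nt.SmallestPrimes
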