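import Pool.Agent.L5helper4.SR.Base

set_option autoImplicit false

/-!
# `n = f_i(p) + P_r` at strings of consecutive primes `p`, for every odd `n` and several `f_i` at once

Let `k, m ≥ 1`. There are `K`, `B` and `δ > 0` and for every `A` a number `r` such that for every set `S`
of at least `K` shifts and all large `N` the following holds for ALL `n ≤ N ^ A` and all monic quadratic
`f_1, …, f_k` with coefficients at most `N ^ A` and `f_i(x) + 1 < n` for `|x| ≤ 2 N`, if no prime divides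
`x (n - f_1(x)) ⋯ (n - f_k(x))` for all `x` (for `k = 1` this is satisfied for admissible `f_1` and odd
`n`): for at least `N / (log N) ^ B` integers `t` between `N` and `2 N` the primes in `[t, t + max S]` are
`t + s`, `s ∈ H`, where `H ⊆ S` has at least `m` elements and does not depend on `t`, and for all these
primes `p` and all `i` the number `n - f_i(p)` has at most `r` prime factors, all at least `N ^ δ`.

The theorem of Maynard and Tao for primes with almost prime companions, uniformly in the polynomial, is in the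
starting library (`Pool.Agent.R498.MP.stringsUR`, never handed in).
-/

namespace Pool.Agent.Results.MP_d9bc60_nt.StringsOfPrimes

open Filter Polynomial
open Pool.Agent.R498.MP (APZ)
open Pool.Agent.L5helper4.SR

/-- `v` has at most `r` prime factors, counted with multiplicity, all of them at least `w`. -/
def AlmostPrime (r : ℕ) (w : ℝ) (v : ℕ) : Prop :=
  v.primeFactorsList.length ≤ r ∧ ∀ p : ℕ, p.Prime → p ∣ v → w ≤ p

/-- no prime divides `x * ∏ (n - (x ^ 2 + b i * x + c i))` for all integers `x` -/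
def NoFixedDivisor {k : ℕ} (b c : Fin k → ℤ) (n : ℤ) : Prop :=
  ∀ p : ℕ, p.Prime → ∃ x : ℤ, ¬ (p : ℤ) ∣ x * ∏ i, (n - (x ^ 2 + b i * x + c i))

/-- one admissible polynomial and an odd `n` -/
theorem noFixedDivisor_one (b c n : ℤ) (hbc : Odd (b + c)) (hb : ¬ (3 : ℤ) ∣ b) (hn : Odd n) :
    NoFixedDivisor (fun _ : Fin 1 => b) (fun _ => c) n := by
  intro p hp
  by_contra hcon
  push Not at hcon
  have h1 : ∀ x : ℤ, (p : ℤ) ∣ x * (n - (x ^ 2 + b * x + c)) := fun x => by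
    have := hcon x
    simpa using this
  have hpi : Prime (p : ℤ) := Nat.prime_iff_prime_int.1 hp
  have h2 : (p : ℤ) ∣ n - (1 + b + c) := by
    have := h1 1
    simpa using this
  have h3 : (p : ℤ) ∣ n - (1 - b + c) := by
    have h := h1 (-1)
    have h' : (-1 : ℤ) * (n - ((-1) ^ 2 + b * (-1) + c)) = -(n - (1 - b + c)) := by ring
    rw [h', dvd_neg] at h
    exact h
  have hp2 : p ≠ 2 := by
    rintro rfl
    obtain ⟨u, hu⟩ := hbc
    obtain ⟨v, hv⟩ := hn
    push_cast at h2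
    omega
  have h4 : (p : ℤ) ∣ 2 * b := by
    have h := dvd_sub h3 h2
    have h' : n - (1 - b + c) - (n - (1 + b + c)) = 2 * b := by ring
    rwa [h'] at h
  have hcop : ¬ (p : ℤ) ∣ 2 := by
    intro h
    have : p ∣ 2 := by exact_mod_cast h
    exact hp2 ((Nat.prime_dvd_prime_iff_eq hp Nat.prime_two).1 this)
  have h5 : (p : ℤ) ∣ b := by
    rcases hpi.dvd_or_dvd h4 with h | h
    · exact absurd h hcop
    · exact h
  have hp3 : p ≠ 3 := by
    rintro rfl
    exact hb (by exact_mod_cast h5)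
  have h6 : (p : ℤ) ∣ n - (4 + 2 * b + c) := by
    have h := h1 2
    rcases hpi.dvd_or_dvd h with h' | h'
    · exact absurd h' hcop
    · have h'' : n - ((2 : ℤ) ^ 2 + b * 2 + c) = n - (4 + 2 * b + c) := by ring
      rwa [h''] at h'
  have h7 : (p : ℤ) ∣ 3 := by
    have h := dvd_sub (dvd_sub h2 h6) h5
    have h' : n - (1 + b + c) - (n - (4 + 2 * b + c)) - b = 3 := by ring
    rwa [h'] at h
  have : p ∣ 3 := by exact_mod_cast h7
  exact hp3 ((Nat.prime_dvd_prime_iff_eq hp Nat.prime_three).1 this)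

/-- **`n = f_i(p) + P_r` at strings of consecutive primes `p`.** -/
theorem result (k m : ℕ) :
    (∀ b c n : ℤ, Odd (b + c) → ¬ (3 : ℤ) ∣ b → Odd n →
      NoFixedDivisor (fun _ : Fin 1 => b) (fun _ => c) n) ∧
    ∃ (K B : ℕ) (δ : ℝ), 0 < δ ∧ ∀ A : ℕ, ∃ r : ℕ, ∀ S : Finset ℕ, K ≤ S.card →
      ∀ᶠ N : ℕ in atTop, ∀ (b c : Fin k → ℤ) (n : ℤ), n ≤ (N : ℤ) ^ A →
      (∀ i, |b i| ≤ (N : ℤ) ^ A ∧ |c i| ≤ (N : ℤ) ^ A) →
      (∀ i, ∀ x : ℤ, |x| ≤ 2 * N → x ^ 2 + b i * x + c i + 1 < n) → NoFixedDivisor b c n →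
      ∃ H ⊆ S, m ≤ H.card ∧ ∃ T : Finset ℕ, (N : ℝ) ≤ Real.log N ^ B * T.card ∧
        ∀ t ∈ T, N < t ∧ t + S.sup id ≤ 2 * N ∧ (∀ y ≤ S.sup id, (t + y).Prime ↔ y ∈ H) ∧
          ∀ s ∈ H, ∀ i, ∃ v : ℕ, n = ((t + s : ℕ) : ℤ) ^ 2 + b i * ((t + s : ℕ) : ℤ) + c i + v ∧
            1 < v ∧ AlmostPrime r ((N : ℝ) ^ δ) v := by
  refine ⟨noFixedDivisor_one, ?_⟩
  obtain ⟨K, B, δ, hδ, h1⟩ := strings_fam k 2 1 squarefree_one m
  refine ⟨K, B, δ, hδ, fun A => ?_⟩
  obtain ⟨r, h2⟩ := h1 (A + 3)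
  refine ⟨r, fun S hS => ?_⟩
  filter_upwards [h2 S hS, eventually_ge_atTop 2, eventually_ge_atTop (S.sup id)] with N h3 hN2 hNS
  intro b c n hn hbc hlt hadm
  have hev : ∀ i, ∀ x : ℤ, (C n - (X ^ 2 + C (b i) * X + C (c i)) : ℤ[X]).eval x =
      n - (x ^ 2 + b i * x + c i) := fun i x => by
    simp
  have hN : (2 : ℤ) ≤ N := by exact_mod_cast hN2
  obtain ⟨H, hHS, hHm, T, hT, h4⟩ := h3 (fun i => C n - (X ^ 2 + C (b i) * X + C (c i))) (by
      intro i
      compute_degree) (by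
      intro p hp
      obtain ⟨x, hx⟩ := hadm p hp
      refine ⟨x, ?_⟩
      simpa [hev] using hx) (by
      intro i x hx
      rw [hev]
      have h5 := hlt i x hx
      have h6 : |n - (x ^ 2 + b i * x + c i)| = n - (x ^ 2 + b i * x + c i) :=
        abs_of_nonneg (by linarith)
      rw [h6]
      have h7 : -(b i * x) ≤ (N : ℤ) ^ A * (2 * N) := by
        refine (neg_le_abs _).trans ?_
        rw [abs_mul]
        exact mul_le_mul (hbc i).1 hx (abs_nonneg _) (by positivity)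
      have h8 : -(c i) ≤ (N : ℤ) ^ A := (neg_le_abs _).trans (hbc i).2
      have h9 : (0 : ℤ) ≤ x ^ 2 := sq_nonneg x
      have h10 : (2 : ℤ) * N + 2 ≤ (N : ℤ) ^ 3 := by
        have h11 : (4 : ℤ) ≤ (N : ℤ) ^ 2 := by nlinarith
        have h12 : (N : ℤ) ^ 3 = N ^ 2 * N := by ring
        nlinarith
      have h13 : (1 : ℤ) ≤ (N : ℤ) ^ A := one_le_pow₀ (by linarith)
      rw [pow_add]
      nlinarith) (by
      intro i x _ hx
      rw [hev]
      have h5 := hlt i x (by
        have : ((S.sup id : ℕ) : ℤ) ≤ N := by exact_mod_cast hNS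
        linarith)
      have : 0 < n - (x ^ 2 + b i * x + c i) := by linarith
      exact this.ne') 0 (by
      intro p hp hp1
      exact absurd (Nat.dvd_one.1 hp1) hp.one_lt.ne')
  refine ⟨H, hHS, hHm, T, hT, fun t ht => ?_⟩
  obtain ⟨h5, h6, h7, h8⟩ := h4 t ht
  refine ⟨h5, h6, h7, fun s hs i => ?_⟩
  have h9 := (h8 s hs).2 i
  rw [hev] at h9
  have hsS : s ≤ S.sup id := Finset.le_sup (f := id) (hHS hs)
  have h10 := hlt i ((t + s : ℕ) : ℤ) (by
    rw [Nat.abs_cast]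
    exact_mod_cast (by omega : t + s ≤ 2 * N))
  obtain ⟨v, hv⟩ : ∃ v : ℕ, (v : ℤ) = n - (((t + s : ℕ) : ℤ) ^ 2 + b i * ((t + s : ℕ) : ℤ) + c i) :=
    ⟨(n - (((t + s : ℕ) : ℤ) ^ 2 + b i * ((t + s : ℕ) : ℤ) + c i)).toNat,
      Int.toNat_of_nonneg (by linarith)⟩
  refine ⟨v, by rw [hv]; ring, ?_, ?_⟩
  · have : (1 : ℤ) < v := by rw [hv]; linarith
    exact_mod_cast this
  · rw [← hv] at h9
    exact apz_nat h9

end Pool.Agent.Results.MP_d9bc60_nt.StringsOfPrimes
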